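import Pool.Agent.KS6_42.HS.Ends

/-!
# Faulty search on the half-line: the optimal ratio at both ends of the range of `p`

The optimal competitive ratio is `4 - 2 p + o(p)` as `p → 0` and `3 + 2 √(1 - p) + o(√(1 - p))` as
`p → 1`. In particular the inequality `ratio ≥ 4 - p` fails for all small `p` and holds, with a
gap, for all `p ≥ 0.87`.

Lower bound `(1 + √(1 - p))²`: average over the logarithmic scale. Lower bound
`p (3 - q + √(q² + 4 q))`, `q = 1 - p`: between two returns to the origin consider the first place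
beyond the old record that is passed only once before the new record is reached.
Upper bound for small `p`: cycle `k` goes from `0` to `u + w`, back to `u`, to `u + 2 w`, back to
`u`, ..., `u + m w`, `u`, `1`, `0`, multiplied by `(1 - p)^(-k)`, with `u ≈ 1 / (m + 1)` a power of
`1 - p` and `w = p u² / (1 - p)`. Upper bound for `p` near `1`, `1 - p = x ^ 4`: cycle `k` goes from
`0` to `x ^ 2`, back to `x ^ 3`, to `1` and back to `0`, multiplied by `x ^ (-3 k)`.
-/

open Filter Topology
open scoped ENNReal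

namespace Pool.Agent.Results.MP_1aa7fe_lc.BothEnds

open Pool.Agent.KS6_42.HS

theorem result :
    -- two lower bounds for all trajectories and all `p`
    (∀ p : ℝ, 0 < p → p < 1 → ∀ t : ℕ → ℝ, IsTraj t → Found p t →
      ENNReal.ofReal ((1 + √(1 - p)) ^ 2) ≤ ratio p t ∧
      ENNReal.ofReal (p * (3 - (1 - p) + √((1 - p) ^ 2 + 4 * (1 - p)))) ≤ ratio p t) ∧
    -- the optimum is `4 - 2 p + o(p)` as `p → 0`
    Tendsto (fun p : ℝ => (4 - (opt p).toReal) / p) (𝓝[>] 0) (𝓝 2) ∧
    -- the optimum is `3 + 2 √(1 - p) + o(√(1 - p))` as `p → 1`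
    Tendsto (fun p : ℝ => ((opt p).toReal - 3) / √(1 - p)) (𝓝[<] 1) (𝓝 2) ∧
    -- the bound `4 - p` fails for small `p`
    (∀ p : ℝ, 0 < p → p < 1 / 144 →
      ∃ t : ℕ → ℝ, IsTraj t ∧ Found p t ∧ ratio p t < ENNReal.ofReal (4 - p)) ∧
    -- the bound `4 - p` holds, but is not attained, for large `p`
    (∀ p : ℝ, 87 / 100 ≤ p → p < 1 → ENNReal.ofReal (4 - p) < opt p) :=
  ⟨fun _ hp hp1 t ht hf => ⟨lower_bound hp hp1 t hf, lower_bound' hp hp1 t ht hf⟩, opt_small,
    opt_near_one, below, above⟩

end Pool.Agent.Results.MP_1aa7fe_lc.BothEnds
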